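import Pool.Agent.U765.OC.Stm

/-!
# Project OC, package LOC: the quarter of a disc is a triangular face
-/

set_option autoImplicit false

open Set Topology

namespace Pool.Agent.U690.OC

open Pool.Agent.U765.OC

lemma comp_eq {α : Type*} [TopologicalSpace α] {E Y O Z : Set α} {x : α} (hE : IsPreconnected E)
    (hx : x ∈ E) (hO : IsOpen O) (hZ : IsClosed Z) (h1 : O ∩ Y = E) (h2 : Z ∩ Y = E) :
    E = connectedComponentIn Y x := by
  have hEY : E ⊆ Y := by rw [← h1]; exact inter_subset_right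
  apply Subset.antisymm (hE.subset_connectedComponentIn hx hEY)
  have hK : IsPreconnected (connectedComponentIn Y x) := isPreconnected_connectedComponentIn
  have hKY : connectedComponentIn Y x ⊆ Y := connectedComponentIn_subset Y x
  have hxK : x ∈ connectedComponentIn Y x := mem_connectedComponentIn (hEY hx)
  have hcov : connectedComponentIn Y x ⊆ O ∪ Zᶜ := by
    intro y hy
    by_cases hyZ : y ∈ Z
    · left
      have : y ∈ Z ∩ Y := ⟨hyZ, hKY hy⟩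
      rw [h2, ← h1] at this
      exact this.1
    · right; exact hyZ
  by_contra hcon
  obtain ⟨y, hyK, hyE⟩ := not_subset.mp hcon
  have hyZ : y ∈ Zᶜ := fun h => hyE (h2 ▸ ⟨h, hKY hyK⟩)
  have hxO : x ∈ O := by
    have : x ∈ O ∩ Y := by rw [h1]; exact hx
    exact this.1
  obtain ⟨z, hzK, hzO, hzZ⟩ := hK O Zᶜ hO hZ.isOpen_compl hcov ⟨x, hxK, hxO⟩ ⟨y, hyK, hyZ⟩
  have : z ∈ O ∩ Y := ⟨hzO, hKY hzK⟩
  rw [h1, ← h2] at this
  exact hzZ this.1

/-- The inverse of `om`. -/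
noncomputable def Phi (p q g w : ℂ) : ℂ := (p - q * (w / g)) / (1 - w / g)

lemma g_ne {g w : ℂ} (h : ‖w‖ < ‖g‖) : g ≠ 0 := by
  rintro rfl
  rw [norm_zero] at h
  exact absurd h (not_lt.mpr (norm_nonneg w))

lemma one_sub_ne {g w : ℂ} (h : ‖w‖ < ‖g‖) : 1 - w / g ≠ 0 := by
  intro h0
  have hg : g ≠ 0 := g_ne h
  have h1 : w / g = 1 := (sub_eq_zero.mp h0).symm
  have h2 : w = g := by rwa [div_eq_one_iff_eq hg] at h1
  rw [h2] at h; exact lt_irrefl _ h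

lemma Phi_sub_q {p q g w : ℂ} (h : ‖w‖ < ‖g‖) : Phi p q g w - q = (p - q) / (1 - w / g) := by
  have h1 := one_sub_ne h
  unfold Phi
  rw [div_sub' h1]
  congr 1; ring

lemma Phi_sub_p {p q g w : ℂ} (h : ‖w‖ < ‖g‖) :
    Phi p q g w - p = (p - q) * (w / g) / (1 - w / g) := by
  have h1 := one_sub_ne h
  unfold Phi
  rw [div_sub' h1]
  congr 1; ring

lemma Phi_ne {p q g w : ℂ} (hpq : p ≠ q) (h : ‖w‖ < ‖g‖) : Phi p q g w ≠ q := by
  rw [← sub_ne_zero, Phi_sub_q h]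
  exact div_ne_zero (sub_ne_zero.mpr hpq) (one_sub_ne h)

lemma om_Phi {p q g w : ℂ} (hpq : p ≠ q) (h : ‖w‖ < ‖g‖) : om p q g (Phi p q g w) = w := by
  have h1 := one_sub_ne h
  have hg : g ≠ 0 := g_ne h
  have hpq' : p - q ≠ 0 := sub_ne_zero.mpr hpq
  unfold om
  rw [Phi_sub_p h, Phi_sub_q h, ← mul_div_assoc, div_div_div_cancel_right₀ h1]
  field_simp

lemma Phi_om {p q g x : ℂ} (hpq : p ≠ q) (hg : g ≠ 0) (hx : x ≠ q) :
    Phi p q g (om p q g x) = x := by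
  have hx' : x - q ≠ 0 := sub_ne_zero.mpr hx
  have hpq' : p - q ≠ 0 := sub_ne_zero.mpr hpq
  have e : om p q g x / g = (x - p) / (x - q) := by unfold om; field_simp
  unfold Phi
  rw [e]
  have e1 : 1 - (x - p) / (x - q) = (p - q) / (x - q) := by
    rw [one_sub_div hx']; congr 1; ring
  have e2 : p - q * ((x - p) / (x - q)) = x * (p - q) / (x - q) := by
    rw [← mul_div_assoc, sub_div' hx']; congr 1; ring
  rw [e1, e2, div_div_div_cancel_right₀ hx', mul_div_assoc, div_self hpq', mul_one]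

lemma continuousOn_Phi (p q g : ℂ) : ContinuousOn (Phi p q g) {w | ‖w‖ < ‖g‖} := by
  unfold Phi
  apply ContinuousOn.div (by fun_prop) (by fun_prop)
  intro w hw
  exact one_sub_ne hw

lemma mem_image {p q g x : ℂ} (hpq : p ≠ q) (hg : g ≠ 0) {S : Set ℂ} (hS : ∀ w ∈ S, ‖w‖ < ‖g‖) :
    x ∈ Phi p q g '' S ↔ x ≠ q ∧ om p q g x ∈ S := by
  constructor
  · rintro ⟨w, hw, rfl⟩
    rw [om_Phi hpq (hS w hw)]
    exact ⟨Phi_ne hpq (hS w hw), hw⟩
  · rintro ⟨h1, h2⟩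
    exact ⟨_, h2, Phi_om hpq hg h1⟩

/-- The neighbourhood. -/
def Nb (p q g : ℂ) (R : ℝ) : Set ℂ := {x | ‖g‖ * ‖x - p‖ < R * ‖x - q‖}

lemma isOpen_Nb (p q g : ℂ) (R : ℝ) : IsOpen (Nb p q g R) :=
  isOpen_lt (by fun_prop) (by fun_prop)

lemma ne_of_mem_Nb {p q g x : ℂ} {R : ℝ} (h : x ∈ Nb p q g R) : x ≠ q := by
  rintro rfl
  have h' : ‖g‖ * ‖x - p‖ < R * ‖x - x‖ := h
  rw [sub_self, norm_zero, mul_zero] at h'
  exact absurd h' (not_lt.mpr (by positivity))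

lemma mem_Nb {p q g x : ℂ} {R : ℝ} (hx : x ≠ q) (h : ‖om p q g x‖ < R) : x ∈ Nb p q g R := by
  have hx' : 0 < ‖x - q‖ := norm_pos_iff.mpr (sub_ne_zero.mpr hx)
  unfold om at h
  rw [norm_div, norm_mul, div_lt_iff₀ hx'] at h
  exact h

lemma continuousOn_om (p q g : ℂ) (R : ℝ) : ContinuousOn (om p q g) (Nb p q g R) := by
  unfold om
  apply ContinuousOn.div (by fun_prop) (by fun_prop)
  intro x hx
  exact sub_ne_zero.mpr (ne_of_mem_Nb hx)

/-- The quarter in the coordinate. -/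
def Q : Set ℂ := Metric.ball 0 1 ∩ ({w | 0 < w.re} ∩ {w | 0 < w.im})

/-- The closed quarter in the coordinate. -/
def Qb : Set ℂ := Metric.closedBall 0 1 ∩ ({w | 0 ≤ w.re} ∩ {w | 0 ≤ w.im})

lemma mem_Q {w : ℂ} : w ∈ Q ↔ ‖w‖ < 1 ∧ 0 < w.re ∧ 0 < w.im := by
  simp [Q]

lemma mem_Qb {w : ℂ} : w ∈ Qb ↔ ‖w‖ ≤ 1 ∧ 0 ≤ w.re ∧ 0 ≤ w.im := by
  simp [Qb]

lemma isOpen_Q : IsOpen Q :=
  Metric.isOpen_ball.inter ((isOpen_lt continuous_const Complex.continuous_re).inter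
    (isOpen_lt continuous_const Complex.continuous_im))

lemma isClosed_Qb : IsClosed Qb :=
  Metric.isClosed_closedBall.inter ((isClosed_le continuous_const Complex.continuous_re).inter
    (isClosed_le continuous_const Complex.continuous_im))

lemma convex_Q : Convex ℝ Q :=
  (convex_ball 0 1).inter ((convex_halfSpace_re_gt 0).inter (convex_halfSpace_im_gt 0))

lemma convex_Qb : Convex ℝ Qb :=
  (convex_closedBall 0 1).inter ((convex_halfSpace_re_ge 0).inter (convex_halfSpace_im_ge 0))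

lemma isCompact_Qb : IsCompact Qb :=
  (isCompact_closedBall 0 1).inter_right ((isClosed_le continuous_const Complex.continuous_re).inter
    (isClosed_le continuous_const Complex.continuous_im))

lemma interior_Qb : interior Qb = Q := by
  unfold Qb Q
  rw [interior_inter, interior_inter, interior_closedBall _ one_ne_zero,
    Complex.interior_setOfPred_le_re, Complex.interior_setOfPred_le_im]

lemma w0_mem : (⟨1/4, 1/4⟩ : ℂ) ∈ Q := by
  rw [mem_Q]
  refine ⟨?_, by norm_num, by norm_num⟩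
  rw [Complex.norm_def, Real.sqrt_lt' one_pos, Complex.normSq_apply]
  norm_num

lemma closure_Q : closure Q = Qb := by
  rw [← interior_Qb, convex_Qb.closure_interior_eq_closure_of_nonempty_interior
    ⟨_, by rw [interior_Qb]; exact w0_mem⟩, isClosed_Qb.closure_eq]

/-- The vertices. -/
noncomputable def u : Fin 3 → ℂ := ![0, 1, Complex.I]

/-- The arcs. -/
noncomputable def c : Fin 3 → ℝ → ℂ :=
  ![fun t => ⟨t, 0⟩, fun t => ⟨√(1 - t ^ 2), t⟩, fun t => ⟨0, 1 - t⟩]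

lemma norm_one_iff {w : ℂ} : ‖w‖ = 1 ↔ w.re ^ 2 + w.im ^ 2 = 1 := by
  rw [← sq_eq_sq₀ (norm_nonneg w) zero_le_one, Complex.sq_norm, Complex.normSq_apply]
  constructor <;> intro h <;> nlinarith

lemma norm_lt_one_iff {w : ℂ} : ‖w‖ < 1 ↔ w.re ^ 2 + w.im ^ 2 < 1 := by
  rw [← sq_lt_sq₀ (norm_nonneg w) zero_le_one, Complex.sq_norm, Complex.normSq_apply]
  constructor <;> intro h <;> nlinarith

lemma norm_le_one_iff {w : ℂ} : ‖w‖ ≤ 1 ↔ w.re ^ 2 + w.im ^ 2 ≤ 1 := by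
  rw [← sq_le_sq₀ (norm_nonneg w) zero_le_one, Complex.sq_norm, Complex.normSq_apply]
  constructor <;> intro h <;> nlinarith

lemma c_continuous (i : Fin 3) : Continuous (c i) := by
  have h : ∀ (f k : ℝ → ℝ), Continuous f → Continuous k → Continuous (fun t => (⟨f t, k t⟩ : ℂ)) := by
    intro f k hf hk
    have : (fun t => (⟨f t, k t⟩ : ℂ)) = fun t => (f t : ℂ) + (k t : ℂ) * Complex.I := by
      funext t; exact Complex.mk_eq_add_mul_I _ _
    rw [this]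
    fun_prop
  fin_cases i
  · exact h _ _ continuous_id continuous_const
  · exact h _ _ (by fun_prop) continuous_id
  · exact h _ _ continuous_const (by fun_prop)

lemma c_zero (i : Fin 3) : c i 0 = u i := by
  fin_cases i <;> simp [c, u, Complex.ext_iff]

lemma c_one (i : Fin 3) : c i 1 = u (i + 1) := by
  fin_cases i <;> simp [c, u, Complex.ext_iff]

lemma mem_A0 {w : ℂ} : w ∈ c 0 '' Ioo 0 1 ↔ w.im = 0 ∧ 0 < w.re ∧ w.re < 1 := by
  constructor
  · rintro ⟨t, ht, rfl⟩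
    exact ⟨rfl, ht.1, ht.2⟩
  · rintro ⟨h0, h1, h2⟩
    exact ⟨w.re, ⟨h1, h2⟩, by simp [c, Complex.ext_iff, h0]⟩

lemma mem_B0 {w : ℂ} : w ∈ c 0 '' Icc 0 1 ↔ w.im = 0 ∧ 0 ≤ w.re ∧ w.re ≤ 1 := by
  constructor
  · rintro ⟨t, ht, rfl⟩
    exact ⟨rfl, ht.1, ht.2⟩
  · rintro ⟨h0, h1, h2⟩
    exact ⟨w.re, ⟨h1, h2⟩, by simp [c, Complex.ext_iff, h0]⟩

lemma mem_A2 {w : ℂ} : w ∈ c 2 '' Ioo 0 1 ↔ w.re = 0 ∧ 0 < w.im ∧ w.im < 1 := by
  constructor
  · rintro ⟨t, ht, rfl⟩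
    exact ⟨rfl, by simp [c]; exact ht.2, by simp [c]; exact ht.1⟩
  · rintro ⟨h0, h1, h2⟩
    exact ⟨1 - w.im, ⟨by linarith, by linarith⟩, by simp [c, Complex.ext_iff, h0]⟩

lemma mem_B2 {w : ℂ} : w ∈ c 2 '' Icc 0 1 ↔ w.re = 0 ∧ 0 ≤ w.im ∧ w.im ≤ 1 := by
  constructor
  · rintro ⟨t, ht, rfl⟩
    exact ⟨rfl, by simp [c]; exact ht.2, by simp [c]; exact ht.1⟩
  · rintro ⟨h0, h1, h2⟩
    exact ⟨1 - w.im, ⟨by linarith, by linarith⟩, by simp [c, Complex.ext_iff, h0]⟩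

lemma mem_A1 {w : ℂ} : w ∈ c 1 '' Ioo 0 1 ↔ ‖w‖ = 1 ∧ 0 < w.re ∧ 0 < w.im := by
  constructor
  · rintro ⟨t, ht, rfl⟩
    have h : 0 < 1 - t ^ 2 := by nlinarith [ht.1, ht.2]
    refine ⟨?_, Real.sqrt_pos.mpr h, ht.1⟩
    rw [norm_one_iff]
    show √(1 - t ^ 2) ^ 2 + t ^ 2 = 1
    rw [Real.sq_sqrt h.le]; ring
  · rintro ⟨h0, h1, h2⟩
    rw [norm_one_iff] at h0
    refine ⟨w.im, ⟨h2, by nlinarith⟩, ?_⟩
    apply Complex.ext
    · show √(1 - w.im ^ 2) = w.re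
      rw [← h0, add_sub_cancel_right, Real.sqrt_sq h1.le]
    · rfl

lemma mem_B1 {w : ℂ} : w ∈ c 1 '' Icc 0 1 ↔ ‖w‖ = 1 ∧ 0 ≤ w.re ∧ 0 ≤ w.im := by
  constructor
  · rintro ⟨t, ht, rfl⟩
    have h : 0 ≤ 1 - t ^ 2 := by nlinarith [ht.1, ht.2]
    refine ⟨?_, Real.sqrt_nonneg _, ht.1⟩
    rw [norm_one_iff]
    show √(1 - t ^ 2) ^ 2 + t ^ 2 = 1
    rw [Real.sq_sqrt h]; ring
  · rintro ⟨h0, h1, h2⟩
    rw [norm_one_iff] at h0
    refine ⟨w.im, ⟨h2, by nlinarith⟩, ?_⟩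
    apply Complex.ext
    · show √(1 - w.im ^ 2) = w.re
      rw [← h0, add_sub_cancel_right, Real.sqrt_sq h1]
    · rfl

lemma c_norm_le {i : Fin 3} {t : ℝ} (ht : t ∈ Icc (0:ℝ) 1) : ‖c i t‖ ≤ 1 := by
  have h : c i t ∈ c i '' Icc 0 1 := ⟨t, ht, rfl⟩
  fin_cases i
  · obtain ⟨h0, h1, h2⟩ := mem_B0.mp h
    rw [norm_le_one_iff]
    simp only [Fin.zero_eta, Fin.isValue] at h0 h1 h2 ⊢
    rw [h0]; nlinarith
  · exact (mem_B1.mp h).1.le
  · obtain ⟨h0, h1, h2⟩ := mem_B2.mp h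
    rw [norm_le_one_iff]
    simp only [Fin.reduceFinMk, Fin.isValue] at h0 h1 h2 ⊢
    rw [h0]; nlinarith

lemma image_lt {g : ℂ} (hg : 1 < ‖g‖) {i : Fin 3} : ∀ w ∈ c i '' Icc 0 1, ‖w‖ < ‖g‖ := by
  rintro w ⟨t, ht, rfl⟩
  exact (c_norm_le ht).trans_lt hg

lemma image_lt' {g : ℂ} (hg : 1 < ‖g‖) {i : Fin 3} : ∀ w ∈ c i '' Ioo 0 1, ‖w‖ < ‖g‖ := by
  rintro w ⟨t, ht, rfl⟩
  exact (c_norm_le (Ioo_subset_Icc_self ht)).trans_lt hg

/-- The open arcs in the plane. -/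
noncomputable def Ea (p q g : ℂ) (i : Fin 3) : Set ℂ := Phi p q g '' (c i '' Ioo 0 1)

lemma closure_Ea {p q g : ℂ} (hg : 1 < ‖g‖) (i : Fin 3) :
    closure (Ea p q g i) = Phi p q g '' (c i '' Icc 0 1) := by
  unfold Ea
  rw [image_image, image_image]
  have h := image_closure_of_isCompact (s := Ioo (0:ℝ) 1) (f := fun t => Phi p q g (c i t)) ?_ ?_
  · rw [closure_Ioo zero_ne_one] at h
    exact h.symm
  · rw [closure_Ioo zero_ne_one]; exact isCompact_Icc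
  · rw [closure_Ioo zero_ne_one]
    exact (continuousOn_Phi p q g).comp (c_continuous i).continuousOn
      (fun t ht => (c_norm_le ht).trans_lt hg)

lemma closure_Ea' {p q g : ℂ} (hg : 1 < ‖g‖) (i : Fin 3) :
    closure (Ea p q g i) = Ea p q g i ∪ {Phi p q g (u i), Phi p q g (u (i + 1))} := by
  rw [closure_Ea hg, ← Ioo_union_both zero_le_one, image_union, image_union, image_pair, image_pair,
    c_zero, c_one]
  rfl

lemma isPreconnected_Ea {p q g : ℂ} (hg : 1 < ‖g‖) (i : Fin 3) : IsPreconnected (Ea p q g i) := by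
  unfold Ea
  rw [image_image]
  apply isPreconnected_Ioo.image
  exact (continuousOn_Phi p q g).comp (c_continuous i).continuousOn
    (fun t ht => (c_norm_le (Ioo_subset_Icc_self ht)).trans_lt hg)

lemma norm_lt_of_Qb {g : ℂ} (hg : 1 < ‖g‖) : ∀ w ∈ Qb, ‖w‖ < ‖g‖ :=
  fun _ hw => (mem_Qb.mp hw).1.trans_lt hg

lemma Q_subset_Qb : Q ⊆ Qb := by
  rw [← closure_Q]; exact subset_closure

lemma quarter_eq {p q g : ℂ} (hpq : p ≠ q) (hg : 1 < ‖g‖) : quarter p q g = Phi p q g '' Q := by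
  have hg0 : g ≠ 0 := by
    rintro rfl
    rw [norm_zero] at hg; linarith
  ext x
  rw [mem_image hpq hg0 (fun w hw => norm_lt_of_Qb hg w (Q_subset_Qb hw)), mem_Q]
  constructor
  · intro h
    refine ⟨?_, h⟩
    rintro rfl
    have h1 : 0 < (om p x g x).re := h.2.1
    unfold om at h1
    rw [sub_self, div_zero] at h1
    simp at h1
  · exact fun h => h.2

lemma isOpen_quarter {p q g : ℂ} (hpq : p ≠ q) (hg : 1 < ‖g‖) : IsOpen (quarter p q g) := by
  have h := (continuousOn_om p q g 1).isOpen_inter_preimage (isOpen_Nb p q g 1) isOpen_Q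
  convert h using 1
  have hg0 : g ≠ 0 := by
    rintro rfl
    rw [norm_zero] at hg; linarith
  rw [quarter_eq hpq hg]
  ext x
  rw [mem_image hpq hg0 (fun w hw => norm_lt_of_Qb hg w (Q_subset_Qb hw))]
  constructor
  · rintro ⟨h1, h2⟩
    exact ⟨mem_Nb h1 (mem_Q.mp h2).1, h2⟩
  · rintro ⟨h1, h2⟩
    exact ⟨ne_of_mem_Nb h1, h2⟩

lemma closure_quarter {p q g : ℂ} (hpq : p ≠ q) (hg : 1 < ‖g‖) :
    closure (quarter p q g) = Phi p q g '' Qb := by
  rw [quarter_eq hpq hg]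
  have h := image_closure_of_isCompact (s := Q) (f := Phi p q g) ?_ ?_
  · rw [closure_Q] at h
    exact h.symm
  · rw [closure_Q]; exact isCompact_Qb
  · rw [closure_Q]
    exact (continuousOn_Phi p q g).mono (norm_lt_of_Qb hg)

lemma Qb_diff_Q : Qb \ Q = ⋃ i, c i '' Icc 0 1 := by
  ext w
  rw [mem_sdiff, mem_Qb, mem_Q, mem_iUnion]
  constructor
  · rintro ⟨⟨h1, h2, h3⟩, h4⟩
    by_cases ha : w.im = 0
    · refine ⟨0, mem_B0.mpr ⟨ha, h2, ?_⟩⟩
      rw [norm_le_one_iff, ha] at h1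
      nlinarith
    · by_cases hb : w.re = 0
      · refine ⟨2, mem_B2.mpr ⟨hb, h3, ?_⟩⟩
        rw [norm_le_one_iff, hb] at h1
        nlinarith
      · refine ⟨1, mem_B1.mpr ⟨?_, h2, h3⟩⟩
        by_contra hc
        exact h4 ⟨lt_of_le_of_ne h1 hc, lt_of_le_of_ne h2 (Ne.symm hb), lt_of_le_of_ne h3 (Ne.symm ha)⟩
  · rintro ⟨i, hi⟩
    have hn : ‖w‖ ≤ 1 := by
      obtain ⟨t, ht, rfl⟩ := hi
      exact c_norm_le ht
    fin_cases i
    · obtain ⟨h0, h1, h2⟩ := mem_B0.mp hi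
      exact ⟨⟨hn, h1, h0.ge⟩, fun h => absurd h.2.2 (by rw [h0]; exact lt_irrefl _)⟩
    · obtain ⟨h0, h1, h2⟩ := mem_B1.mp hi
      exact ⟨⟨hn, h1, h2⟩, fun h => absurd h.1 (by rw [h0]; exact lt_irrefl _)⟩
    · obtain ⟨h0, h1, h2⟩ := mem_B2.mp hi
      exact ⟨⟨hn, h0.ge, h1⟩, fun h => absurd h.2.1 (by rw [h0]; exact lt_irrefl _)⟩

lemma frontier_quarter {p q g : ℂ} (hpq : p ≠ q) (hg : 1 < ‖g‖) :
    frontier (quarter p q g) = ⋃ i, closure (Ea p q g i) := by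
  have hg0 : g ≠ 0 := by
    rintro rfl
    rw [norm_zero] at hg; linarith
  rw [(isOpen_quarter hpq hg).frontier_eq, closure_quarter hpq hg, quarter_eq hpq hg]
  simp_rw [closure_Ea hg]
  rw [← image_iUnion, ← Qb_diff_Q]
  ext x
  rw [mem_sdiff, mem_image hpq hg0 (norm_lt_of_Qb hg),
    mem_image hpq hg0 (fun w hw => norm_lt_of_Qb hg w (Q_subset_Qb hw)),
    mem_image hpq hg0 (fun w hw => norm_lt_of_Qb hg w hw.1), mem_sdiff]
  tauto

lemma exW (i : Fin 3) : ∃ W : Set ℂ, IsOpen W ∧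
    (∀ w ∈ W, (w.re = 0 ∨ w.im = 0 ∨ ‖w‖ = 1) → w ∈ c i '' Ioo 0 1) ∧ c i '' Ioo 0 1 ⊆ W := by
  have hre : IsOpen {w : ℂ | 0 < w.re} := isOpen_lt continuous_const Complex.continuous_re
  have him : IsOpen {w : ℂ | 0 < w.im} := isOpen_lt continuous_const Complex.continuous_im
  have hno : IsOpen {w : ℂ | ‖w‖ < 1} := isOpen_lt continuous_norm continuous_const
  fin_cases i
  · refine ⟨_, hno.inter hre, ?_, ?_⟩
    · rintro w ⟨h1, h2⟩ h
      have h1' : ‖w‖ < 1 := h1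
      have h2' : 0 < w.re := h2
      refine mem_A0.mpr ?_
      have h3 : w.im = 0 := by
        rcases h with h | h | h
        · rw [h] at h2'; exact absurd h2' (lt_irrefl _)
        · exact h
        · rw [h] at h1'; exact absurd h1' (lt_irrefl _)
      rw [norm_lt_one_iff, h3] at h1'
      exact ⟨h3, h2', by nlinarith⟩
    · intro w hw
      obtain ⟨h0, h1, h2⟩ := mem_A0.mp hw
      refine ⟨?_, h1⟩
      show ‖w‖ < 1
      rw [norm_lt_one_iff, h0]; nlinarith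
  · refine ⟨_, hre.inter him, ?_, ?_⟩
    · rintro w ⟨h1, h2⟩ h
      have h1' : 0 < w.re := h1
      have h2' : 0 < w.im := h2
      refine mem_A1.mpr ⟨?_, h1', h2'⟩
      rcases h with h | h | h
      · rw [h] at h1'; exact absurd h1' (lt_irrefl _)
      · rw [h] at h2'; exact absurd h2' (lt_irrefl _)
      · exact h
    · intro w hw
      exact (mem_A1.mp hw).2
  · refine ⟨_, hno.inter him, ?_, ?_⟩
    · rintro w ⟨h1, h2⟩ h
      have h1' : ‖w‖ < 1 := h1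
      have h2' : 0 < w.im := h2
      refine mem_A2.mpr ?_
      have h3 : w.re = 0 := by
        rcases h with h | h | h
        · exact h
        · rw [h] at h2'; exact absurd h2' (lt_irrefl _)
        · rw [h] at h1'; exact absurd h1' (lt_irrefl _)
      rw [norm_lt_one_iff, h3] at h1'
      exact ⟨h3, h2', by nlinarith⟩
    · intro w hw
      obtain ⟨h0, h1, h2⟩ := mem_A2.mp hw
      refine ⟨?_, h1⟩
      show ‖w‖ < 1
      rw [norm_lt_one_iff, h0]; nlinarith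

lemma A_crit {i : Fin 3} {w : ℂ} (h : w ∈ c i '' Ioo 0 1) :
    (w.re = 0 ∨ w.im = 0 ∨ ‖w‖ = 1) ∧ ¬ (w = 0 ∨ (‖w‖ = 1 ∧ (w.re = 0 ∨ w.im = 0))) := by
  fin_cases i
  · obtain ⟨h0, h1, h2⟩ := mem_A0.mp h
    refine ⟨Or.inr (Or.inl h0), ?_⟩
    rintro (h3 | ⟨h3, -⟩)
    · rw [h3] at h1; exact lt_irrefl _ h1
    · rw [norm_one_iff, h0] at h3; nlinarith
  · obtain ⟨h0, h1, h2⟩ := mem_A1.mp h
    refine ⟨Or.inr (Or.inr h0), ?_⟩
    rintro (h3 | ⟨-, h3 | h3⟩)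
    · rw [h3] at h1; exact lt_irrefl _ h1
    · rw [h3] at h1; exact lt_irrefl _ h1
    · rw [h3] at h2; exact lt_irrefl _ h2
  · obtain ⟨h0, h1, h2⟩ := mem_A2.mp h
    refine ⟨Or.inl h0, ?_⟩
    rintro (h3 | ⟨h3, -⟩)
    · rw [h3] at h1; exact lt_irrefl _ h1
    · rw [norm_one_iff, h0] at h3; nlinarith

theorem t_LOC : S_LOC := by
  intro p q g R U X hpq hR hRg hU hX
  have hg : 1 < ‖g‖ := hR.trans hRg
  have hg0 : g ≠ 0 := by
    rintro rfl
    rw [norm_zero] at hg; linarith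
  have hbQ : ∀ w ∈ Q, ‖w‖ < ‖g‖ := fun w hw => norm_lt_of_Qb hg w (Q_subset_Qb hw)
  -- the criteria in terms of membership in `Phi '' S`
  have hU' : ∀ x, x ∈ Nb p q g R →
      (x ∈ U ↔ (om p q g x).re = 0 ∨ (om p q g x).im = 0 ∨ ‖om p q g x‖ = 1) := hU
  have hX' : ∀ x, x ∈ Nb p q g R →
      (x ∈ X ↔ om p q g x = 0 ∨ (‖om p q g x‖ = 1 ∧ ((om p q g x).re = 0 ∨ (om p q g x).im = 0))) := hX
  have hinjPhi : ∀ w w' : ℂ, ‖w‖ < ‖g‖ → ‖w'‖ < ‖g‖ → Phi p q g w = Phi p q g w' → w = w' := by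
    intro w w' hw hw' h
    rw [← om_Phi hpq hw, h, om_Phi hpq hw']
  have hu1 : ∀ i, ‖u i‖ ≤ 1 := by
    intro i
    rw [← c_zero]; exact c_norm_le ⟨le_rfl, zero_le_one⟩
  have huX : ∀ i, Phi p q g (u i) ∈ X := by
    intro i
    have h1 : ‖u i‖ < ‖g‖ := (hu1 i).trans_lt hg
    have h2 : Phi p q g (u i) ∈ Nb p q g R :=
      mem_Nb (Phi_ne hpq h1) (by rw [om_Phi hpq h1]; exact (hu1 i).trans_lt hR)
    rw [hX' _ h2, om_Phi hpq h1]
    fin_cases i <;> simp [u]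
  refine ⟨?_, Ea p q g, fun i => Phi p q g (u i), ?_, ?_, ?_, huX, closure_Ea' hg,
    frontier_quarter hpq hg⟩
  · -- the face
    have hsub : Phi p q g '' Q ⊆ Uᶜ := by
      intro x hx hxU
      rw [mem_image hpq hg0 hbQ, mem_Q] at hx
      obtain ⟨h1, h2, h3, h4⟩ := hx
      rcases (hU' x (mem_Nb h1 (h2.trans hR))).mp hxU with h | h | h
      · rw [h] at h3; exact lt_irrefl _ h3
      · rw [h] at h4; exact lt_irrefl _ h4
      · rw [h] at h2; exact lt_irrefl _ h2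
    have hx0 : Phi p q g ⟨1/4, 1/4⟩ ∈ Phi p q g '' Q := mem_image_of_mem _ w0_mem
    refine ⟨Phi p q g ⟨1/4, 1/4⟩, hsub hx0, ?_⟩
    have hpre : IsPreconnected (quarter p q g) := by
      rw [quarter_eq hpq hg]
      exact convex_Q.isPreconnected.image _ ((continuousOn_Phi p q g).mono hbQ)
    have hZ : IsClosed (Phi p q g '' Qb) := by
      rw [← closure_quarter hpq hg]; exact isClosed_closure
    refine comp_eq hpre (by rw [quarter_eq hpq hg]; exact hx0) (isOpen_quarter hpq hg) hZ ?_ ?_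
    · rw [quarter_eq hpq hg]
      exact inter_eq_left.mpr hsub
    · rw [quarter_eq hpq hg]
      apply Subset.antisymm
      · rintro x ⟨hx, hxU⟩
        rw [mem_image hpq hg0 (norm_lt_of_Qb hg), mem_Qb] at hx
        obtain ⟨h1, h2, h3, h4⟩ := hx
        rw [mem_image hpq hg0 hbQ, mem_Q]
        have h5 := (hU' x (mem_Nb h1 (h2.trans_lt hR))).not.mp hxU
        push Not at h5
        exact ⟨h1, lt_of_le_of_ne h2 h5.2.2, lt_of_le_of_ne h3 (Ne.symm h5.1),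
          lt_of_le_of_ne h4 (Ne.symm h5.2.1)⟩
      · exact fun x hx => ⟨image_mono Q_subset_Qb hx, hsub hx⟩
  · -- injectivity of the arcs
    intro i j hij
    have hm : c i (1/2) ∈ c j '' Ioo 0 1 := by
      have h1 : Phi p q g (c i (1/2)) ∈ Ea p q g j := by
        rw [← hij]
        exact ⟨_, ⟨1/2, by norm_num, rfl⟩, rfl⟩
      obtain ⟨w, hw, hw'⟩ := h1
      have h2 : ‖c i (1/2)‖ < ‖g‖ := (c_norm_le (by norm_num)).trans_lt hg
      rw [← hinjPhi w _ (image_lt' hg w hw) h2 hw']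
      exact hw
    fin_cases i <;> fin_cases j <;> first | rfl | (exfalso; revert hm; simp only [Fin.zero_eta, Fin.mk_one, Fin.reduceFinMk, mem_A0, mem_A1, mem_A2, norm_one_iff]; simp [c]; try norm_num)
  · -- injectivity of the vertices
    intro i j hij
    have h := hinjPhi _ _ ((hu1 i).trans_lt hg) ((hu1 j).trans_lt hg) hij
    revert h
    fin_cases i <;> fin_cases j <;> simp [u, Complex.ext_iff]
  · -- the arcs are components
    intro i
    have hsub : Ea p q g i ⊆ U \ X := by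
      intro x hx
      unfold Ea at hx
      rw [mem_image hpq hg0 (image_lt' hg)] at hx
      obtain ⟨h1, h2⟩ := hx
      have h3 : ‖om p q g x‖ ≤ 1 := by
        obtain ⟨t, ht, h⟩ := h2
        rw [← h]; exact c_norm_le (Ioo_subset_Icc_self ht)
      have h4 := mem_Nb h1 (h3.trans_lt hR)
      rw [mem_sdiff, hU' x h4, hX' x h4]
      exact A_crit h2
    obtain ⟨W, hWo, hW1, hW2⟩ := exW i
    have hmid : Phi p q g (c i (1/2)) ∈ Ea p q g i := ⟨_, ⟨1/2, by norm_num, rfl⟩, rfl⟩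
    refine ⟨_, hsub hmid, ?_⟩
    refine comp_eq (isPreconnected_Ea hg i) hmid
      ((continuousOn_om p q g R).isOpen_inter_preimage (isOpen_Nb p q g R) hWo)
      (isClosed_closure (s := Ea p q g i)) ?_ ?_
    · apply Subset.antisymm
      · rintro x ⟨⟨h1, h2⟩, h3, -⟩
        unfold Ea
        rw [mem_image hpq hg0 (image_lt' hg)]
        exact ⟨ne_of_mem_Nb h1, hW1 _ h2 ((hU' x h1).mp h3)⟩
      · intro x hx
        refine ⟨?_, hsub hx⟩
        unfold Ea at hx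
        rw [mem_image hpq hg0 (image_lt' hg)] at hx
        obtain ⟨h1, h2⟩ := hx
        refine ⟨mem_Nb h1 ?_, hW2 h2⟩
        obtain ⟨t, ht, h⟩ := h2
        rw [← h]; exact (c_norm_le (Ioo_subset_Icc_self ht)).trans_lt hR
    · rw [closure_Ea' hg i]
      apply Subset.antisymm
      · rintro x ⟨h1 | h1 | h1, -, h3⟩
        · exact h1
        · rw [h1] at h3; exact absurd (huX i) h3
        · rw [mem_singleton_iff.mp h1] at h3; exact absurd (huX (i + 1)) h3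
      · exact fun x hx => ⟨Or.inl hx, hsub hx⟩

end Pool.Agent.U690.OC
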